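import Pool.Agent.helper54.UG.Spec

/-!
# Row ug:ZD (MP_a2a22c_al)

The block group is Zariski dense.
-/

set_option autoImplicit false

namespace Pool.Agent.UG

open Matrix Pool.Agent.H48SL

/-- a nilpotent matrix of size `n` has vanishing `n`-th power -/
theorem ZD_pow {n : ℕ} {Z : MQ n} (hZ : IsNilpotent Z) : Z ^ n = 0 := by
  have h1 := Matrix.isNilpotent_charpoly_sub_pow_of_isNilpotent hZ
  have h2 : Z.charpoly - Polynomial.X ^ Fintype.card (Fin n) = 0 := h1.eq_zero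
  rw [sub_eq_zero, Fintype.card_fin] at h2
  have h3 := Matrix.aeval_self_charpoly Z
  rw [h2, map_pow, Polynomial.aeval_X] at h3
  exact h3

theorem ZD_exp {n : ℕ} {Z : MQ n} (hZ : IsNilpotent Z) (t : ℚ) (i j : Fin n) :
    IsNilpotent.exp (t • Z) i j =
      ∑ k ∈ Finset.range n, ((k.factorial : ℚ)⁻¹ * t ^ k) * (Z ^ k) i j := by
  have h1 : (t • Z) ^ n = 0 := by
    rw [smul_pow, ZD_pow hZ, smul_zero]
  rw [IsNilpotent.exp_eq_sum h1, Matrix.sum_apply]
  refine Finset.sum_congr rfl fun k _ => ?_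
  rw [smul_pow, smul_smul, Matrix.smul_apply, smul_eq_mul]

/-- powers of a matrix of polynomial functions -/
theorem ZD_pq {m n : ℕ} (Z : SLZ m → MQ n) (hZ : ∀ i j, IsPolyQ (fun h => Z h i j)) (k : ℕ) :
    ∀ i j, IsPolyQ (fun h => (Z h ^ k) i j) := by
  induction k with
  | zero =>
    intro i j
    simp only [pow_zero]
    exact IsPolyQ.const _
  | succ k ih =>
    intro i j
    simp only [pow_succ, Matrix.mul_apply]
    exact IsPolyQ.sum _ _ fun l _ => (ih i l).mul (hZ l j)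

/-- composition of a polynomial with polynomial curves -/
theorem ZD_comp {σ : Type} (f : σ → ℚ → ℚ) (hf : ∀ x, ∃ p : Polynomial ℚ, ∀ t, f x t = p.eval t)
    (P : MvPolynomial σ ℚ) :
    ∃ q : Polynomial ℚ, ∀ t, MvPolynomial.eval (fun x => f x t) P = q.eval t := by
  induction P using MvPolynomial.induction_on with
  | C c => exact ⟨Polynomial.C c, fun t => by simp⟩
  | add p q hp hq =>
    obtain ⟨p', hp'⟩ := hp
    obtain ⟨q', hq'⟩ := hq
    exact ⟨p' + q', fun t => by rw [map_add, hp', hq', Polynomial.eval_add]⟩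
  | mul_X p i hp =>
    obtain ⟨p', hp'⟩ := hp
    obtain ⟨r, hr⟩ := hf i
    exact ⟨p' * r, fun t => by
      rw [map_mul, hp', MvPolynomial.eval_X, hr, Polynomial.eval_mul]⟩

/-- the value of an integral polynomial function in terms of the rational matrix -/
theorem ZD_val {n : ℕ} (P : MvPolynomial (Fin n × Fin n) ℤ) (g : SLZ n) :
    ((MvPolynomial.eval (fun x : Fin n × Fin n => (g : Matrix (Fin n) (Fin n) ℤ) x.1 x.2) P : ℤ) : ℚ)
      = MvPolynomial.eval (fun x : Fin n × Fin n => qg g x.1 x.2)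
          (MvPolynomial.map (Int.castRingHom ℚ) P) := by
  rw [MvPolynomial.eval_map]
  have h1 := MvPolynomial.eval₂_comp (Int.castRingHom ℚ)
    (fun x : Fin n × Fin n => (g : Matrix (Fin n) (Fin n) ℤ) x.1 x.2) P
  exact h1

/-- the key property (*) -/
theorem ZD_key (hEXD : EXD_stmt) (hEXJ : EXJ_stmt) (hFFA : FFA_stmt) {n : ℕ}
    (H : Subgroup (SLZ (n + 1))) (X : (Fin (n + 1) → ℚ) → MQ (n + 1)) (hH : ZDense H)
    (hX : Fam H X) (h : SLZ (n + 1)) (t : ℚ) (s : SLZ n)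
    (hs : qg s = IsNilpotent.exp (t • dn (Ff X h))) : s ∈ Zc (Hb H) := by
  obtain ⟨a1, a2, a3, a4, a5⟩ := hFFA n H X hX
  have hZ : ∀ h, IsNilpotent (dn (Ff X h)) := fun h => (hEXD n _ (a2 h) (a1 h)).1
  rw [mem_Zc]
  intro F hF hF0
  obtain ⟨P, hP⟩ := hF
  have hval : ∀ g, ((F g : ℤ) : ℚ) = MvPolynomial.eval (fun x : Fin n × Fin n => qg g x.1 x.2)
      (MvPolynomial.map (Int.castRingHom ℚ) P) := by
    intro g
    rw [hP g]
    exact ZD_val P g
  generalize MvPolynomial.map (Int.castRingHom ℚ) P = P' at hval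
  -- the multiples
  have hmul : ∀ (h : SLZ (n + 1)) (c : ℚ), IsNilpotent (c • Ff X h) ∧ (c • Ff X h) *ᵥ e0 n = 0 := by
    intro h c
    refine ⟨(a2 h).smul c, ?_⟩
    rw [Matrix.smul_mulVec, a1, smul_zero]
  -- vanishing on `H`
  have step1 : ∀ h ∈ H, ∀ t : ℚ, MvPolynomial.eval (fun x : Fin n × Fin n =>
      IsNilpotent.exp (t • dn (Ff X h)) x.1 x.2) P' = 0 := by
    intro h hh t
    obtain ⟨k, hk, g, hg, hgk⟩ := a4 h hh
    have hpc := (hEXJ n _ (hZ h)).2.2.2.2.2.2.1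
    obtain ⟨q, hq⟩ := ZD_comp (fun (x : Fin n × Fin n) (t : ℚ) =>
      IsNilpotent.exp (t • dn (Ff X h)) x.1 x.2) (fun x => hpc x.1 x.2) P'
    have hroot : ∀ j : ℕ, q.eval ((j : ℚ) * k) = 0 := by
      intro j
      have e1 : qg (g ^ j) = IsNilpotent.exp (((j : ℚ) * k) • Ff X h) := by
        rw [qg_pow, hgk, (hEXJ (n + 1) _ (hmul h k).1).1 j, smul_smul]
      obtain ⟨-, e2, e3⟩ := hEXD n _ (hmul h ((j : ℚ) * k)).1 (hmul h ((j : ℚ) * k)).2
      have hfx : fx (g ^ j) := by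
        unfold fx
        rw [e1, e3]
      have hmem : bl (g ^ j) hfx ∈ Hb H := by
        rw [mem_Hb]
        exact ⟨g ^ j, H.pow_mem hg j, hfx, (qg_bl _ _).symm⟩
      have h0 := hF0 _ hmem
      have h1 := hval (bl (g ^ j) hfx)
      rw [h0, Int.cast_zero, qg_bl, e1, e2] at h1
      rw [← hq]
      exact h1.symm
    have hq0 : q = 0 := by
      apply Polynomial.eq_zero_of_infinite_isRoot
      refine Set.infinite_of_injective_forall_mem (f := fun j : ℕ => (j : ℚ) * k) ?_ ?_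
      · intro a b hab
        have hk0 : (k : ℚ) ≠ 0 := by
          have : 0 < k := hk
          positivity
        have := mul_right_cancel₀ hk0 hab
        exact_mod_cast this
      · intro j
        exact hroot j
    rw [hq, hq0, Polynomial.eval_zero]
  -- vanishing everywhere
  have step2 : MvPolynomial.eval (fun x : Fin n × Fin n =>
      IsNilpotent.exp (t • dn (Ff X h)) x.1 x.2) P' = 0 := by
    refine IsPolyQ.dense hH (F := fun h => MvPolynomial.eval (fun x : Fin n × Fin n =>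
      IsNilpotent.exp (t • dn (Ff X h)) x.1 x.2) P') ?_ (fun x hx => step1 x hx t) h
    refine IsPolyQ.evalP (fun (x : Fin n × Fin n) h =>
      IsNilpotent.exp (t • dn (Ff X h)) x.1 x.2) ?_ P'
    intro x
    have e : (fun h => IsNilpotent.exp (t • dn (Ff X h)) x.1 x.2) = fun h =>
        ∑ k ∈ Finset.range n, ((k.factorial : ℚ)⁻¹ * t ^ k) * (dn (Ff X h) ^ k) x.1 x.2 := by
      funext h
      exact ZD_exp (hZ h) t x.1 x.2
    change IsPolyQ (fun h => IsNilpotent.exp (t • dn (Ff X h)) x.1 x.2)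
    rw [e]
    refine IsPolyQ.sum _ _ fun k _ => (IsPolyQ.const _).mul ?_
    exact ZD_pq (fun h => dn (Ff X h)) (fun i j => a5 i.succ j.succ) k x.1 x.2
  have h3 := hval s
  rw [hs, step2] at h3
  exact_mod_cast h3

theorem ZD (hEXD : EXD_stmt) (hEXC : EXC_stmt) (hEXJ : EXJ_stmt) (hEXI : EXI_stmt)
    (hFFA : FFA_stmt) (hFFB : FFB_stmt) (hFIZ : FIZ_stmt) (hNSG : NSG_stmt) : ZD_stmt := by
  intro n hn H X hH hX
  obtain ⟨a1, a2, a3, a4, a5⟩ := hFFA n H X hX
  have hZ : ∀ h, IsNilpotent (dn (Ff X h)) := fun h => (hEXD n _ (a2 h) (a1 h)).1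
  let S : Set (SLZ n) := {s | ∃ (h : SLZ (n + 1)) (t : ℚ), qg s = IsNilpotent.exp (t • dn (Ff X h))}
  have hSconj : ∀ s ∈ S, ∀ σ : SLZ n, σ * s * σ⁻¹ ∈ S := by
    rintro s ⟨h, t, hs⟩ σ
    obtain ⟨u, hu, hus⟩ := exists_up σ
    refine ⟨u * h, t, ?_⟩
    have hinv : dn (qg u⁻¹) = qg σ⁻¹ := by
      have e1 : dn (qg u) * dn (qg u⁻¹) = 1 := by
        rw [← dn_mul _ _ (fx_succ hu), qg_mul_inv, dn_one]
      rw [hus] at e1
      calc dn (qg u⁻¹) = qg σ⁻¹ * (qg σ * dn (qg u⁻¹)) := by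
            rw [← Matrix.mul_assoc, qg_inv_mul, Matrix.one_mul]
        _ = qg σ⁻¹ := by rw [e1, Matrix.mul_one]
    have e2 : dn (Ff X (u * h)) = qg σ * dn (Ff X h) * qg σ⁻¹ := by
      rw [a3 u h hu, dn_mul _ _ ?_, dn_mul _ _ (fx_succ hu), hus, hinv]
      intro i
      have h1 : (qg u * Ff X h) *ᵥ e0 n = 0 := by
        rw [← mulVec_mulVec, a1, mulVec_zero]
      exact (kill_iff _).1 h1 i.succ
    have e3 : t • dn (Ff X (u * h)) = qg σ * (t • dn (Ff X h)) * qg σ⁻¹ := by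
      rw [e2, Matrix.mul_smul, Matrix.smul_mul]
    rw [e3, (hEXC n σ _ ((hZ h).smul t)).2, ← hs, qg_mul, qg_mul]
  have hle : Subgroup.normalClosure S ≤ Zc (Hb H) := by
    unfold Subgroup.normalClosure
    rw [Subgroup.closure_le]
    intro s hs
    obtain ⟨a, ha, hc⟩ := Group.mem_conjugatesOfSet_iff.1 hs
    obtain ⟨c, rfl⟩ := isConj_iff.1 hc
    obtain ⟨h, t, hht⟩ := hSconj a ha c
    exact ZD_key hEXD hEXJ hFFA H X hH hX h t _ hht
  -- a nontrivial element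
  obtain ⟨m, rfl⟩ : ∃ m, n = m + 1 := ⟨n - 1, by omega⟩
  obtain ⟨h, hh⟩ := hFFB m H X hX
  obtain ⟨k, hk, s, hs⟩ := hEXI (m + 1) _ (hZ h)
  have hsS : s ∈ S := ⟨h, k, hs⟩
  have hk0 : (k : ℚ) ≠ 0 := by
    have : 0 < k := hk
    positivity
  have hs1 : s ≠ 1 := by
    intro h1
    rw [h1, qg_one] at hs
    have h2 := (hEXJ (m + 1) _ ((hZ h).smul (k : ℚ))).2.2.2.1 hs.symm
    rcases smul_eq_zero.1 h2 with h3 | h3
    · exact hk0 h3
    · exact hh h3
  have hnil : IsNilpotent (qg s - 1) := by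
    rw [hs]
    exact (hEXJ (m + 1) _ ((hZ h).smul (k : ℚ))).2.2.2.2.2.2.2
  have hfi := hNSG (m + 1) hn (Subgroup.normalClosure S) Subgroup.normalClosure_normal s
    (Subgroup.subset_normalClosure hsS) hs1 hnil
  exact zdense_of_le_Zc (hFIZ (m + 1) hn _ hfi) hle

end Pool.Agent.UG
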